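import Mathlib
import Pool.Agent.H8.Novikov

namespace Pool.Agent.Results.MP_ceb5ee_gt.BothQuestions

open Filter Topology Set MeasureTheory

/-- Null-finite sets. -/
def NullFinite {X : Type*} [AddCommGroup X] [TopologicalSpace X] (A : Set X) : Prop :=
  ∃ x : ℕ → X, Tendsto x atTop (𝓝 0) ∧ ∀ y : X, {n | y + x n ∈ A}.Finite

theorem hull {X : Type*} [AddCommGroup X] [TopologicalSpace X] [IsTopologicalAddGroup X]
    [PolishSpace X] (A : Set X) (hA : AnalyticSet A) (hN : NullFinite A) :
    ∃ B : Set X, MeasurableSet[borel X] B ∧ NullFinite B ∧ A ⊆ B := by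
  let _ : MeasurableSpace X := borel X
  have _ : BorelSpace X := ⟨rfl⟩
  obtain ⟨x, hx, hfin⟩ := hN
  obtain ⟨D, hD1, hD2, hD3⟩ := Pool.Agent.H8.Novikov.novikov
    (fun N => ⋃ n, (fun y => y + x (n + N)) ⁻¹' A)
    (fun N => AnalyticSet.iUnion fun n => hA.preimage (by fun_prop)) (by
      rw [eq_empty_iff_forall_notMem]
      intro y hy
      obtain ⟨M, hM⟩ := (hfin y).bddAbove
      obtain ⟨n, hn⟩ := mem_iUnion.1 (mem_iInter.1 hy (M + 1))
      have := hM (show n + (M + 1) ∈ {n | y + x n ∈ A} from hn)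
      omega)
  refine ⟨⋂ N, ⋂ n, (fun a => a - x (n + N)) ⁻¹' D N, ?_, ⟨x, hx, fun y => ?_⟩, fun a ha => ?_⟩
  · exact MeasurableSet.iInter fun N => MeasurableSet.iInter fun n =>
      (show Continuous fun a => a - x (n + N) by fun_prop).measurable (hD1 N)
  · obtain ⟨N, hN⟩ : ∃ N, y ∉ D N := by
      by_contra h
      push Not at h
      have : y ∈ ⋂ N, D N := mem_iInter.2 h
      rw [hD3] at this
      exact this
    refine (finite_lt_nat N).subset fun n hn => ?_
    by_contra h
    have h1 : N ≤ n := not_lt.1 h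
    have h2 := mem_iInter.1 (mem_iInter.1 hn N) (n - N)
    rw [Nat.sub_add_cancel h1] at h2
    exact hN (by simpa using h2)
  · refine mem_iInter.2 fun N => mem_iInter.2 fun n => hD2 N (mem_iUnion.2 ⟨n, ?_⟩)
    simpa using ha

/-- Basic cylinders of the group of integer sequences. -/
def O (j : ℕ) : Set (ℕ → ℤ) := {a | a (Nat.unpair j).1 = Equiv.intEquivNat.symm (Nat.unpair j).2}

/-- Evaluation of a code for a Borel set at a point. -/
inductive Val (c : List ℕ → ℕ) (a : ℕ → ℤ) : List ℕ → Bool → Prop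
  | leafT (σ j) : c σ = j + 1 → a ∈ O j → Val c a σ true
  | leafF (σ j) : c σ = j + 1 → a ∉ O j → Val c a σ false
  | norT (σ) : c σ = 0 → (∀ k, Val c a (σ ++ [k]) false) → Val c a σ true
  | norF (σ k) : c σ = 0 → Val c a (σ ++ [k]) true → Val c a σ false

lemma val_unique {c : List ℕ → ℕ} {a : ℕ → ℤ} {σ : List ℕ} {b : Bool} (h : Val c a σ b) :
    ¬ Val c a σ (!b) := by
  induction h with
  | leafT σ j h1 h2 =>
    intro h
    cases h with
    | leafF _ i h3 h4 => exact h4 ((show j = i by omega) ▸ h2)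
    | norF _ k h3 _ => omega
  | leafF σ j h1 h2 =>
    intro h
    cases h with
    | leafT _ i h3 h4 => exact h2 ((show i = j by omega) ▸ h4)
    | norT _ h3 _ => omega
  | norT σ h1 _ ih =>
    intro h
    cases h with
    | leafF _ i h3 _ => omega
    | norF _ k _ h4 => exact ih k h4
  | norF σ k h1 _ ih =>
    intro h
    cases h with
    | leafT _ i h3 _ => omega
    | norT _ _ h4 => exact ih (h4 k)

/-- `c` codes `B`. -/
def Codes (c : List ℕ → ℕ) (B : Set (ℕ → ℤ)) : Prop :=
  ∀ a, (a ∈ B → Val c a [] true) ∧ (a ∉ B → Val c a [] false)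

/-- The code of the complement of a union. -/
def nor (c : ℕ → List ℕ → ℕ) : List ℕ → ℕ
  | [] => 0
  | k :: σ => c k σ

lemma val_nor (c : ℕ → List ℕ → ℕ) (k : ℕ) {a : ℕ → ℤ} {σ : List ℕ} {b : Bool}
    (h : Val (c k) a σ b) : Val (nor c) a (k :: σ) b := by
  induction h with
  | leafT σ j h1 h2 => exact Val.leafT _ j h1 h2
  | leafF σ j h1 h2 => exact Val.leafF _ j h1 h2
  | norT σ h1 _ ih => exact Val.norT _ h1 ih
  | norF σ j h1 _ ih => exact Val.norF _ j h1 ih

lemma codes_nor (B : ℕ → Set (ℕ → ℤ)) (h : ∀ k, ∃ c, Codes c (B k)) :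
    ∃ c, Codes c (⋃ k, B k)ᶜ := by
  choose c hc using h
  refine ⟨nor c, fun a => ⟨fun ha => ?_, fun ha => ?_⟩⟩
  · exact Val.norT _ rfl fun k => val_nor c k ((hc k a).2 fun h => ha (mem_iUnion.2 ⟨k, h⟩))
  · obtain ⟨k, hk⟩ := mem_iUnion.1 (not_not.1 ha)
    exact Val.norF _ k rfl (val_nor c k ((hc k a).1 hk))

lemma codes_compl (B : Set (ℕ → ℤ)) (h : ∃ c, Codes c B) : ∃ c, Codes c Bᶜ := by
  simpa [iUnion_const] using codes_nor (fun _ => B) fun _ => h

lemma codes_O (j : ℕ) : ∃ c, Codes c (O j) :=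
  ⟨fun _ => j + 1, fun _ => ⟨Val.leafT _ j rfl, Val.leafF _ j rfl⟩⟩

lemma codes_borel (B : Set (ℕ → ℤ)) (hB : MeasurableSet B) : ∃ c, Codes c B := by
  let M : MeasurableSpace (ℕ → ℤ) :=
    { MeasurableSet' := fun B => ∃ c, Codes c B
      measurableSet_empty := by
        have := codes_nor (fun k => if k = 0 then O 0 else (O 0)ᶜ) fun k => by
          split_ifs
          · exact codes_O 0
          · exact codes_compl _ (codes_O 0)
        convert this
        rw [eq_comm, compl_empty_iff, eq_univ_iff_forall]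
        intro a
        by_cases ha : a ∈ O 0
        · exact mem_iUnion.2 ⟨0, by simpa using ha⟩
        · exact mem_iUnion.2 ⟨1, by simpa using ha⟩
      measurableSet_compl := codes_compl
      measurableSet_iUnion := fun B h => by
        simpa using codes_compl _ (codes_nor B h) }
  have h : @Measurable _ _ M MeasurableSpace.pi id := by
    refine (@measurable_pi_iff _ _ _ M _ _).2 fun k => ?_
    refine @measurable_to_countable' _ _ _ _ M _ fun u => ?_
    have := codes_O (Nat.pair k (Equiv.intEquivNat u))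
    simp only [O, Nat.unpair_pair, Equiv.symm_apply_apply] at this
    exact this
  exact h hB

lemma analytic_not_val (c : (ℕ → ℤ) → List ℕ → ℕ) (hc : Measurable c) (g : (ℕ → ℤ) → ℕ → ℤ)
    (hg : Measurable g) (b : Bool) : AnalyticSet {a | ¬ Val (c a) (g a) [] b} := by
  classical
  let S : Set ((ℕ → ℤ) × (List ℕ × Bool → Bool)) := {q |
    (∀ σ j, c q.1 σ = j + 1 → g q.1 (Nat.unpair j).1 = Equiv.intEquivNat.symm (Nat.unpair j).2 →
      q.2 (σ, true) = true) ∧
    (∀ σ j, c q.1 σ = j + 1 → ¬ g q.1 (Nat.unpair j).1 = Equiv.intEquivNat.symm (Nat.unpair j).2 →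
      q.2 (σ, false) = true) ∧
    (∀ σ, c q.1 σ = 0 → (∀ k, q.2 (σ ++ [k], false) = true) → q.2 (σ, true) = true) ∧
    (∀ σ k, c q.1 σ = 0 → q.2 (σ ++ [k], true) = true → q.2 (σ, false) = true) ∧
    ¬ q.2 ([], b) = true}
  have h1 : ∀ σ j, Measurable fun q : (ℕ → ℤ) × (List ℕ × Bool → Bool) => c q.1 σ = j :=
    fun σ j => measurableSet_setOfPred.1 (measurableSet_eq_fun
      ((measurable_pi_apply σ).comp (hc.comp measurable_fst)) measurable_const)
  have h2 : ∀ k u, Measurable fun q : (ℕ → ℤ) × (List ℕ × Bool → Bool) => g q.1 k = u :=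
    fun k u => measurableSet_setOfPred.1 (measurableSet_eq_fun
      ((measurable_pi_apply k).comp (hg.comp measurable_fst)) measurable_const)
  have h3 : ∀ p, Measurable fun q : (ℕ → ℤ) × (List ℕ × Bool → Bool) => q.2 p = true :=
    fun p => measurableSet_setOfPred.1 (measurableSet_eq_fun
      ((measurable_pi_apply p).comp measurable_snd) measurable_const)
  have hS : MeasurableSet S := measurableSet_setOfPred.2
    ((Measurable.forall fun σ => Measurable.forall fun j => (h1 _ _).imp ((h2 _ _).imp (h3 _))).and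
    ((Measurable.forall fun σ => Measurable.forall fun j =>
      (h1 _ _).imp ((h2 _ _).not.imp (h3 _))).and
    ((Measurable.forall fun σ => (h1 _ _).imp ((Measurable.forall fun k => h3 _).imp (h3 _))).and
    ((Measurable.forall fun σ => Measurable.forall fun k => (h1 _ _).imp ((h3 _).imp (h3 _))).and
    (h3 _).not))))
  have he : {a | ¬ Val (c a) (g a) [] b} = Prod.fst '' S := by
    ext a
    constructor
    · intro ha
      refine ⟨(a, fun p => decide (Val (c a) (g a) p.1 p.2)), ⟨?_, ?_, ?_, ?_, ?_⟩, rfl⟩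
      · exact fun σ j e1 e2 => decide_eq_true (Val.leafT σ j e1 e2)
      · exact fun σ j e1 e2 => decide_eq_true (Val.leafF σ j e1 e2)
      · exact fun σ e1 e2 => decide_eq_true (Val.norT σ e1 fun k => of_decide_eq_true (e2 k))
      · exact fun σ k e1 e2 => decide_eq_true (Val.norF σ k e1 (of_decide_eq_true e2))
      · exact fun e => ha (of_decide_eq_true e)
    · rintro ⟨⟨a', R⟩, ⟨e1, e2, e3, e4, e5⟩, rfl⟩ hv
      have : ∀ σ b, Val (c a') (g a') σ b → R (σ, b) = true := by
        intro σ b h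
        induction h with
        | leafT σ j f1 f2 => exact e1 σ j f1 f2
        | leafF σ j f1 f2 => exact e2 σ j f1 f2
        | norT σ f1 _ ih => exact e3 σ f1 ih
        | norF σ k f1 _ ih => exact e4 σ k f1 ih
      exact e5 (this _ _ hv)
  rw [he]
  have i1 : PolishSpace Bool := inferInstance
  have i2 : PolishSpace (List ℕ × Bool → Bool) := inferInstance
  have i3 : PolishSpace (ℕ → ℤ) := inferInstance
  exact hS.analyticSet.image_of_continuous continuous_fst

/-- `u` is close to `4 ^ j`. -/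
def Near (u : ℤ) (j : ℕ) : Prop := 4 * |u - 4 ^ j| ≤ 4 ^ j

lemma near_lt {u v : ℤ} {i j : ℕ} (hu : Near u i) (hv : Near v j) (h : |u - v| ≤ 1) : ¬ i < j := by
  intro hij
  unfold Near at hu hv
  have h1 : (4 : ℤ) ^ (i + 1) ≤ 4 ^ j := pow_le_pow_right₀ (by norm_num) hij
  rw [pow_succ] at h1
  have h2 : (1 : ℤ) ≤ 4 ^ i := one_le_pow₀ (by norm_num)
  have h3 := le_abs_self (u - 4 ^ i)
  have h4 := neg_abs_le (v - 4 ^ j)
  have h5 := neg_abs_le (u - v)
  linarith

lemma near_eq {u v : ℤ} {i j : ℕ} (hu : Near u i) (hv : Near v j) (h : |u - v| ≤ 1) : i = j :=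
  le_antisymm (not_lt.1 (near_lt hv hu (by rwa [abs_sub_comm]))) (not_lt.1 (near_lt hu hv h))

noncomputable def pp (u : ℤ) : ℕ := Classical.epsilon (Near u)

lemma pp_eq {u : ℤ} {j : ℕ} (h : Near u j) : pp u = j :=
  near_eq (Classical.epsilon_spec ⟨j, h⟩) h (by simp)

noncomputable def xx (p : ℕ → ℕ) : ℕ → ℤ := fun k => 4 ^ p k

def cc (p : ℕ → ℕ) : List ℕ → ℕ := fun σ => (Nat.unpair (p (2 * Encodable.encode σ))).1

def ss (p : ℕ → ℕ) (n : ℕ) : ℕ → ℤ := fun k =>
  Equiv.intEquivNat.symm (Nat.unpair (p (2 * Nat.pair n k + 1))).1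

noncomputable def P (a : ℕ → ℤ) : ℕ → ℕ := fun k => pp (a k)

/-- The coanalytic null-finite set. -/
def A : Set (ℕ → ℤ) := {a | (∀ k, Near (a k) (P a k)) ∧ ∃ n, a = xx (P a) + ss (P a) n ∧
  Val (cc (P a)) a [] false ∧ ∀ m < n, Val (cc (P a)) (xx (P a) + ss (P a) m) [] true}

lemma A_coanalytic : AnalyticSet Aᶜ := by
  have hP : Measurable P := measurable_pi_lambda _ fun k =>
    (measurable_of_countable pp).comp (measurable_pi_apply k)
  have hx : Measurable fun a => xx (P a) := measurable_pi_lambda _ fun k =>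
    (measurable_of_countable fun j : ℕ => (4 : ℤ) ^ j).comp ((measurable_pi_apply k).comp hP)
  have hc : Measurable fun a => cc (P a) := measurable_pi_lambda _ fun σ =>
    (measurable_of_countable fun j : ℕ => (Nat.unpair j).1).comp
      ((measurable_pi_apply (2 * Encodable.encode σ)).comp hP)
  have hs : ∀ n, Measurable fun a => ss (P a) n := fun n => measurable_pi_lambda _ fun k =>
    (measurable_of_countable fun j : ℕ => Equiv.intEquivNat.symm (Nat.unpair j).1).comp
      ((measurable_pi_apply (2 * Nat.pair n k + 1)).comp hP)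
  have he : Aᶜ = (⋃ k, {a : ℕ → ℤ | ¬ Near (a k) (pp (a k))}) ∪ ⋂ n,
      ({a | a = xx (P a) + ss (P a) n}ᶜ ∪ ({a | ¬ Val (cc (P a)) a [] false} ∪
        ⋃ m : Fin n, {a | ¬ Val (cc (P a)) (xx (P a) + ss (P a) m) [] true})) := by
    ext a
    simp only [A, P, mem_compl_iff, mem_ofPred_eq, mem_union, mem_iUnion, mem_iInter, not_and_or,
      not_forall, not_exists, Fin.exists_iff, exists_prop]
  have hu : ∀ {s t : Set (ℕ → ℤ)}, AnalyticSet s → AnalyticSet t → AnalyticSet (s ∪ t) := by
    intro s t h1 h2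
    rw [union_eq_iUnion]
    exact AnalyticSet.iUnion fun b => by cases b <;> assumption
  rw [he]
  refine hu (AnalyticSet.iUnion fun k => MeasurableSet.analyticSet ?_)
    (AnalyticSet.iInter fun n => hu (MeasurableSet.analyticSet ?_)
      (hu (analytic_not_val _ hc _ measurable_id false) (AnalyticSet.iUnion fun m =>
        analytic_not_val _ hc _ (hx.add (hs m)) true)))
  · exact measurableSet_setOfPred.2 ((measurable_of_countable fun u : ℤ => ¬ Near u (pp u)).comp
      (measurable_pi_apply k))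
  · exact (measurableSet_eq_fun measurable_id (hx.add (hs n))).compl

lemma A_nullFinite : NullFinite A := by
  refine ⟨fun m => Pi.single m 1, ?_, fun y => ?_⟩
  · refine tendsto_pi_nhds.2 fun n => tendsto_const_nhds.congr' ?_
    filter_upwards [eventually_gt_atTop n] with N hN
    rw [Pi.single_eq_of_ne hN.ne]
    rfl
  · refine Set.Subsingleton.finite fun m hm m' hm' => ?_
    obtain ⟨h1, n, h2, h3, h4⟩ := hm
    obtain ⟨h1', n', h2', h3', h4'⟩ := hm'
    have hP : P (y + Pi.single m 1) = P (y + Pi.single m' 1) := by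
      funext k
      refine near_eq (h1 k) (h1' k) ?_
      simp only [Pi.add_apply, Pi.single_apply]
      split_ifs <;> simp
    rw [← hP] at h2' h3' h4'
    have hn : n = n' := by
      rcases lt_trichotomy n n' with h | h | h
      · have := h4' n h
        rw [← h2] at this
        exact absurd this (val_unique h3)
      · exact h
      · have := h4 n' h
        rw [← h2'] at this
        exact absurd this (val_unique h3')
    rw [← hn, ← h2] at h2'
    have h5 := congrFun (add_left_cancel h2') m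
    by_contra hne
    simp only [Pi.single_eq_same, Pi.single_eq_of_ne hne] at h5
    exact zero_ne_one h5

lemma A_no_hull (B : Set (ℕ → ℤ)) (hB : MeasurableSet B) (hN : NullFinite B) : ¬ A ⊆ B := by
  classical
  obtain ⟨c, hc⟩ := codes_borel B hB
  obtain ⟨s, hs, hfin⟩ := hN
  have hb : ∀ k, ∃ b : ℕ, ∀ n, |s n k| ≤ b := by
    intro k
    have h1 := tendsto_pi_nhds.1 hs k
    rw [nhds_discrete, tendsto_pure] at h1
    obtain ⟨N, hN⟩ := eventually_atTop.1 h1
    refine ⟨∑ n ∈ Finset.range N, (s n k).natAbs, fun n => ?_⟩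
    by_cases h : n < N
    · rw [← Int.natCast_natAbs]
      exact_mod_cast Finset.single_le_sum (f := fun n => (s n k).natAbs)
        (fun _ _ => Nat.zero_le _) (Finset.mem_range.2 h)
    · rw [hN n (not_lt.1 h)]
      simp only [Pi.zero_apply, abs_zero]
      positivity
  choose b hb using hb
  let d : ℕ → ℕ := fun k => if k % 2 = 0 then c (Denumerable.ofNat (List ℕ) (k / 2)) else
    Equiv.intEquivNat (s (Nat.unpair (k / 2)).1 (Nat.unpair (k / 2)).2)
  let p : ℕ → ℕ := fun k => Nat.pair (d k) (b k)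
  have hcc : cc p = c := by
    funext σ
    simp only [cc, p, d, Nat.unpair_pair]
    rw [if_pos (by omega), Nat.mul_div_cancel_left _ two_pos, Denumerable.ofNat_encode]
  have hss : ∀ n, ss p n = s n := by
    intro n
    funext k
    simp only [ss, p, d, Nat.unpair_pair]
    rw [if_neg (by omega), show (2 * Nat.pair n k + 1) / 2 = Nat.pair n k by omega,
      Nat.unpair_pair, Equiv.symm_apply_apply]
  have hnear : ∀ n k, Near ((xx p + s n) k) (p k) := by
    intro n k
    unfold Near
    simp only [xx, Pi.add_apply, add_sub_cancel_left]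
    have h1 : ∀ j : ℕ, 4 * (j : ℤ) ≤ 4 ^ j := by
      intro j
      induction j with
      | zero => simp
      | succ i ih =>
        rcases i with _ | i
        · simp
        · have : (1 : ℤ) ≤ 4 ^ i := one_le_pow₀ (by norm_num)
          push_cast at ih ⊢
          rw [pow_succ] at ih ⊢
          rw [pow_succ]
          linarith
    have h2 : ((b k : ℕ) : ℤ) ≤ p k := by exact_mod_cast Nat.right_le_pair _ _
    linarith [hb k n, h1 (p k)]
  have hP : ∀ n, P (xx p + s n) = p := fun n => funext fun k => pp_eq (hnear n k)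
  have hex : ∃ n, xx p + s n ∉ B := by
    by_contra h
    push Not at h
    exact Set.infinite_univ ((hfin (xx p)).subset fun n _ => h n)
  intro hsub
  refine Nat.find_spec hex (hsub ⟨fun k => ?_, Nat.find hex, ?_, ?_, fun m hm => ?_⟩)
  · rw [hP]; exact hnear _ k
  · rw [hP, hss]
  · rw [hP, hcc]; exact (hc _).2 (Nat.find_spec hex)
  · rw [hP, hcc, hss]; exact (hc _).1 (not_not.1 (Nat.find_min hex hm))

/-- Q1 holds: analytic null-finite sets have Borel null-finite hulls in every abelian Polish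
group.  Q2 fails: some coanalytic null-finite set has no Borel null-finite hull. -/
theorem result :
    (∀ (X : Type) [AddCommGroup X] [TopologicalSpace X] [IsTopologicalAddGroup X] [PolishSpace X]
      (A : Set X), AnalyticSet A → NullFinite A →
        ∃ B : Set X, MeasurableSet[borel X] B ∧ NullFinite B ∧ A ⊆ B) ∧
    (∃ (X : Type) (_ : AddCommGroup X) (_ : TopologicalSpace X),
      IsTopologicalAddGroup X ∧ PolishSpace X ∧ ∃ A : Set X, AnalyticSet Aᶜ ∧ NullFinite A ∧
        ¬ ∃ B : Set X, MeasurableSet[borel X] B ∧ NullFinite B ∧ A ⊆ B) := by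
  refine ⟨fun X _ _ _ _ A => hull A, ℕ → ℤ, inferInstance, inferInstance, inferInstance,
    inferInstance, A, A_coanalytic, A_nullFinite, ?_⟩
  rintro ⟨B, h1, h2, h3⟩
  have hb : (MeasurableSpace.pi : MeasurableSpace (ℕ → ℤ)) = borel _ := BorelSpace.measurable_eq
  rw [← hb] at h1
  exact A_no_hull B h1 h2 h3

end Pool.Agent.Results.MP_ceb5ee_gt.BothQuestions
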